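import Mathlib
set_option autoImplicit false
namespace Pool.Agent.Results.MP_69d63a_nt.PositiveScore

/-- the primes counted from zero: `p 0 = 2`, `p 1 = 3`, ... -/
noncomputable def p (k : ℕ) : ℕ := Nat.nth Nat.Prime k

/-- the `k`-th prime gap `p k - p (k - 1)`, `k ≥ 1` -/
noncomputable def g (k : ℕ) : ℤ := (p k : ℤ) - (p (k - 1) : ℤ)

/-- the score: `a n = ∑_{k=2}^n sign (g k - g (k - 1))` (so `a 0 = a 1 = 0`) -/
noncomputable def a (n : ℕ) : ℤ := ∑ k ∈ Finset.Icc 2 n, Int.sign (g k - g (k - 1))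

/-! ## Sieving with bit masks -/

/-- bits of `a` that are not bits of `b` -/
def andn (a b : ℕ) : ℕ := Nat.xor a (Nat.land a b)

theorem testBit_andn (a b i : ℕ) : (andn a b).testBit i = (a.testBit i && !b.testBit i) := by
  show (a ^^^ (a &&& b)).testBit i = _
  rw [Nat.testBit_xor, Nat.testBit_and]
  cases a.testBit i <;> cases b.testBit i <;> rfl

theorem tb_lor (a b i : ℕ) : (Nat.lor a b).testBit i = (a.testBit i || b.testBit i) :=
  Nat.testBit_or a b i

theorem tb_land (a b i : ℕ) : (Nat.land a b).testBit i = (a.testBit i && b.testBit i) :=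
  Nat.testBit_and a b i

theorem tb_shl (a s i : ℕ) : (Nat.shiftLeft a s).testBit i = (decide (s ≤ i) && a.testBit (i - s)) :=
  Nat.testBit_shiftLeft ..

theorem tb_shr (a s i : ℕ) : (Nat.shiftRight a s).testBit i = a.testBit (s + i) :=
  Nat.testBit_shiftRight ..

/-- multiples of `p`, doubled until `s ≥ K` -/
def mult (K : ℕ) : ℕ → ℕ → ℕ → ℕ
  | 0, _, m => m
  | f + 1, s, m => bif Nat.ble K s then m else mult K f (Nat.mul 2 s) (Nat.lor m (Nat.shiftLeft m s))

theorem mult_spec (K p : ℕ) : ∀ (f s m : ℕ), p ∣ s → K ≤ s * 2 ^ f →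
    (∀ i, m.testBit i = true ↔ (p ∣ i ∧ i < s)) →
    ∀ i, i < K → ((mult K f s m).testBit i = true ↔ p ∣ i) := by
  intro f
  induction f with
  | zero =>
    intro s m _ hK hm i hi
    rw [mult, hm]
    constructor
    · exact fun h => h.1
    · intro h; exact ⟨h, by simpa using lt_of_lt_of_le hi hK⟩
  | succ f ih =>
    intro s m hs hK hm i hi
    rw [mult]
    by_cases h : K ≤ s
    · rw [Nat.ble_eq_true_of_le h, cond_true, hm]
      exact ⟨fun h => h.1, fun h2 => ⟨h2, by omega⟩⟩
    · have hb : Nat.ble K s = false := by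
        rw [← Bool.not_eq_true, Nat.ble_eq]; exact h
      rw [hb, cond_false]
      apply ih
      · exact Dvd.dvd.mul_left hs 2
      · show K ≤ 2 * s * 2 ^ f
        rw [pow_succ] at hK
        nlinarith
      · intro j
        rw [tb_lor, tb_shl, Bool.or_eq_true, Bool.and_eq_true, decide_eq_true_iff, hm, hm]
        show _ ↔ p ∣ j ∧ j < 2 * s
        constructor
        · rintro (⟨h1, h2⟩ | ⟨h1, h2, h3⟩)
          · exact ⟨h1, by omega⟩
          · refine ⟨?_, by omega⟩
            have := dvd_add h2 hs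
            rwa [Nat.sub_add_cancel h1] at this
        · rintro ⟨h1, h2⟩
          by_cases h3 : j < s
          · exact Or.inl ⟨h1, h3⟩
          · exact Or.inr ⟨by omega, Nat.dvd_sub h1 hs, by omega⟩
      · exact hi

theorem mult_one (K p f : ℕ) (hp : 0 < p) (hK : K ≤ p * 2 ^ f) (i : ℕ) (hi : i < K) :
    (mult K f p 1).testBit i = true ↔ p ∣ i := by
  apply mult_spec K p f p 1 dvd_rfl hK _ i hi
  intro j
  rw [Nat.testBit_one_eq_true_iff_self_eq_zero]
  constructor
  · rintro rfl; exact ⟨dvd_zero _, hp⟩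
  · rintro ⟨h1, h2⟩; exact Nat.eq_zero_of_dvd_of_lt h1 h2

def comp (K : ℕ) : ℕ → ℕ
  | 0 => 1
  | t + 1 => Nat.lor (comp K t) (Nat.shiftLeft (mult K 21 (2 * t + 3) 1) (2 * (t + 1) * (t + 2)))

theorem comp_spec (K : ℕ) (hK : K ≤ 2 ^ 21) (T i : ℕ) (hi : i < K) :
    (comp K T).testBit i = true ↔ (i = 0 ∨ ∃ t < T, 2 * (t + 1) * (t + 2) ≤ i ∧
      (2 * t + 3) ∣ (i - 2 * (t + 1) * (t + 2))) := by
  induction T with
  | zero =>
    rw [comp, Nat.testBit_one_eq_true_iff_self_eq_zero]
    constructor
    · exact Or.inl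
    · rintro (h | ⟨t, ht, _⟩)
      · exact h
      · omega
  | succ T ih =>
    rw [comp, tb_lor, Bool.or_eq_true, ih, tb_shl, Bool.and_eq_true, decide_eq_true_iff]
    rw [mult_one K (2 * T + 3) 21 (by omega) (by nlinarith) _ (by omega)]
    constructor
    · rintro ((h | ⟨t, ht, h⟩) | h)
      · exact Or.inl h
      · exact Or.inr ⟨t, by omega, h⟩
      · exact Or.inr ⟨T, by omega, h⟩
    · rintro (h | ⟨t, ht, h⟩)
      · exact Or.inl (Or.inl h)
      · rcases Nat.lt_succ_iff_lt_or_eq.1 ht with h2 | rfl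
        · exact Or.inl (Or.inr ⟨t, h2, h⟩)
        · exact Or.inr h

theorem prime_iff (T i : ℕ) (hi : 2 * i + 1 < (2 * T + 3) ^ 2) :
    (2 * i + 1).Prime ↔ ¬ (i = 0 ∨ ∃ t < T, 2 * (t + 1) * (t + 2) ≤ i ∧
      (2 * t + 3) ∣ (i - 2 * (t + 1) * (t + 2))) := by
  constructor
  · rintro hp (rfl | ⟨t, ht, h1, j, h2⟩)
    · exact Nat.not_prime_one hp
    · have h3 : i = 2 * (t + 1) * (t + 2) + (2 * t + 3) * j := by omega
      have h4 : 2 * i + 1 = (2 * t + 3) * (2 * t + 3 + 2 * j) := by rw [h3]; ring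
      rw [h4] at hp
      exact Nat.not_prime_mul (by omega) (by omega) hp
  · intro h
    push Not at h
    obtain ⟨h0, h1⟩ := h
    by_contra hnp
    set p := (2 * i + 1).minFac with hpdef
    have hp : p.Prime := Nat.minFac_prime (by omega)
    have hpd : p ∣ 2 * i + 1 := Nat.minFac_dvd _
    have hsq : p ^ 2 ≤ 2 * i + 1 := Nat.minFac_sq_le_self (by omega) hnp
    have hpT : p < 2 * T + 3 := by
      by_contra hcon
      push Not at hcon
      have := Nat.pow_le_pow_left hcon 2
      omega
    obtain ⟨c, hc⟩ := hpd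
    have hpodd : p % 2 = 1 := by
      rcases Nat.mod_two_eq_zero_or_one p with h2 | h2
      · exfalso
        obtain ⟨k, hk⟩ := Nat.dvd_of_mod_eq_zero h2
        rw [hk] at hc
        have : (2 * i + 1) % 2 = (2 * k * c) % 2 := by rw [hc]
        rw [mul_assoc, Nat.mul_mod_right] at this
        omega
      · exact h2
    have hcodd : c % 2 = 1 := by
      rcases Nat.mod_two_eq_zero_or_one c with h2 | h2
      · exfalso
        obtain ⟨k, hk⟩ := Nat.dvd_of_mod_eq_zero h2
        rw [hk] at hc
        have : (2 * i + 1) % 2 = (p * (2 * k)) % 2 := by rw [hc]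
        rw [mul_left_comm, Nat.mul_mod_right] at this
        omega
      · exact h2
    have hpc : p ≤ c := by
      have : p * p ≤ p * c := by rw [← hc]; nlinarith
      exact Nat.le_of_mul_le_mul_left this hp.pos
    have hp2 : 2 ≤ p := hp.two_le
    obtain ⟨t, ht⟩ : ∃ t, p = 2 * t + 3 := ⟨(p - 3) / 2, by omega⟩
    obtain ⟨j, hj⟩ : ∃ j, c = p + 2 * j := ⟨(c - p) / 2, by omega⟩
    have h5 : i = 2 * (t + 1) * (t + 2) + (2 * t + 3) * j := by
      rw [hj, ht] at hc
      nlinarith
    exact h1 t (by omega) (by omega) ⟨j, by omega⟩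

def sieve (K T : ℕ) : ℕ := andn (2 ^ K - 1) (comp K T)

theorem sieve_spec (K T : ℕ) (hK : K ≤ 2 ^ 21) (hKT : 2 * K < (2 * T + 3) ^ 2) (i : ℕ) :
    (sieve K T).testBit i = true ↔ i < K ∧ (2 * i + 1).Prime := by
  rw [sieve, testBit_andn, Nat.testBit_two_pow_sub_one, Bool.and_eq_true, decide_eq_true_iff]
  constructor
  · rintro ⟨h1, h2⟩
    refine ⟨h1, ?_⟩
    rw [prime_iff T i (by omega), ← comp_spec K hK T i h1]
    simpa using h2
  · rintro ⟨h1, h2⟩
    refine ⟨h1, ?_⟩
    rw [prime_iff T i (by omega), ← comp_spec K hK T i h1] at h2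
    simpa using h2

def AA (S A0 : ℕ) : ℕ → ℕ
  | 0 => A0
  | e + 1 => andn (AA S A0 e) (Nat.lor (Nat.shiftLeft S (e + 1)) (Nat.shiftRight S (e + 1)))

def UU (S A0 : ℕ) : ℕ → ℕ
  | 0 => 0
  | e + 1 => Nat.lor (UU S A0 e)
      (andn (Nat.land (AA S A0 e) (Nat.shiftLeft S (e + 1))) (Nat.shiftRight S (e + 1)))

def DD (S A0 : ℕ) : ℕ → ℕ
  | 0 => 0
  | e + 1 => Nat.lor (DD S A0 e)
      (andn (Nat.land (AA S A0 e) (Nat.shiftRight S (e + 1))) (Nat.shiftLeft S (e + 1)))

theorem out_spec (S A0 s : ℕ) (hs : A0.testBit s = false) (e : ℕ) :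
    (AA S A0 e).testBit s = false ∧ (UU S A0 e).testBit s = false ∧ (DD S A0 e).testBit s = false := by
  induction e with
  | zero => exact ⟨hs, by simp [UU], by simp [DD]⟩
  | succ e ih =>
    obtain ⟨h1, h2, h3⟩ := ih
    simp only [AA, UU, DD, testBit_andn, tb_lor, tb_land, h1, h2, h3]
    simp

theorem in_spec (S A0 s a b : ℕ) (hs : A0.testBit s = true) (ha : 1 ≤ a) (has : a ≤ s)
    (hSa : S.testBit (s - a) = true) (ha' : ∀ j, 1 ≤ j → j < a → S.testBit (s - j) = false)
    (hb : 1 ≤ b) (hSb : S.testBit (s + b) = true)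
    (hb' : ∀ j, 1 ≤ j → j < b → S.testBit (s + j) = false) (e : ℕ) :
    (AA S A0 e).testBit s = decide (e < a ∧ e < b) ∧
    (UU S A0 e).testBit s = decide (a < b ∧ a ≤ e) ∧
    (DD S A0 e).testBit s = decide (b < a ∧ b ≤ e) := by
  induction e with
  | zero =>
    refine ⟨?_, ?_, ?_⟩
    · rw [AA, hs]; symm; rw [decide_eq_true_iff]; omega
    · rw [UU, Nat.zero_testBit]; symm; rw [decide_eq_false_iff_not]; omega
    · rw [DD, Nat.zero_testBit]; symm; rw [decide_eq_false_iff_not]; omega
  | succ e ih =>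
    obtain ⟨h1, h2, h3⟩ := ih
    have hL : (Nat.shiftLeft S (e + 1)).testBit s = decide (e + 1 = a) ∨ a ≤ e := by
      rw [tb_shl]
      by_cases h : a ≤ e
      · exact Or.inr h
      · left
        by_cases h4 : e + 1 = a
        · rw [h4, hSa]; simp [has]
        · rw [ha' (e + 1) (by omega) (by omega)]; simp [h4]
    have hR : (Nat.shiftRight S (e + 1)).testBit s = decide (e + 1 = b) ∨ b ≤ e := by
      rw [tb_shr, add_comm]
      by_cases h : b ≤ e
      · exact Or.inr h
      · left
        by_cases h4 : e + 1 = b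
        · rw [h4, hSb]; simp
        · rw [hb' (e + 1) (by omega) (by omega)]; simp [h4]
    simp only [AA, UU, DD, testBit_andn, tb_lor, tb_land, h1, h2, h3]
    by_cases hae : a ≤ e
    · have e1 : decide (e < a ∧ e < b) = false := by rw [decide_eq_false_iff_not]; omega
      rw [e1]
      refine ⟨?_, ?_, ?_⟩
      · simp; omega
      · simp only [Bool.false_and, Bool.or_false]
        congr 1
        apply propext; constructor <;> intro h <;> omega
      · simp only [Bool.false_and, Bool.or_false]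
        congr 1
        apply propext; constructor <;> intro h <;> omega
    · by_cases hbe : b ≤ e
      · have e1 : decide (e < a ∧ e < b) = false := by rw [decide_eq_false_iff_not]; omega
        rw [e1]
        refine ⟨?_, ?_, ?_⟩
        · simp; omega
        · simp only [Bool.false_and, Bool.or_false]
          congr 1
          apply propext; constructor <;> intro h <;> omega
        · simp only [Bool.false_and, Bool.or_false]
          congr 1
          apply propext; constructor <;> intro h <;> omega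
      · rw [hL.resolve_right hae, hR.resolve_right hbe]
        have e1 : decide (e < a ∧ e < b) = true := by rw [decide_eq_true_iff]; omega
        rw [e1]
        have e2 : decide (a < b ∧ a ≤ e) = false := by rw [decide_eq_false_iff_not]; omega
        have e3 : decide (b < a ∧ b ≤ e) = false := by rw [decide_eq_false_iff_not]; omega
        rw [e2, e3]
        refine ⟨?_, ?_, ?_⟩
        all_goals
          rw [Bool.eq_iff_iff]
          simp only [Bool.and_eq_true, Bool.not_eq_true', decide_eq_true_iff,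
            Bool.or_eq_false_iff, decide_eq_false_iff_not, Bool.false_or, Bool.true_and]
          omega


/-- sum of the shifted and masked copies -/
def pcs (M x : ℕ) : ℕ → ℕ
  | 0 => 0
  | r + 1 => Nat.add (pcs M x r) (Nat.land (Nat.shiftRight x r) M)

/-- popcount for numbers below `2 ^ (32 * n)` -/
def pc (n x : ℕ) : ℕ := (pcs (mult (32 * n) 21 32 1) x 32) % (2 ^ 32 - 1)

theorem sum_bits (y : ℕ) : ∀ K : ℕ, y < 2 ^ K →
    y = ∑ i ∈ Finset.range K, (y.testBit i).toNat * 2 ^ i := by
  have h : ∀ K : ℕ, y % 2 ^ K = ∑ i ∈ Finset.range K, (y.testBit i).toNat * 2 ^ i := by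
    intro K
    induction K with
    | zero => simp [Nat.mod_one]
    | succ K ih =>
      rw [Finset.sum_range_succ, ← ih, Nat.pow_succ, Nat.mod_mul]
      congr 1
      rw [Nat.testBit_eq_decide_div_mod_eq]
      rcases Nat.mod_two_eq_zero_or_one (y / 2 ^ K) with h | h <;> simp [h]
  intro K hK
  rw [← h, Nat.mod_eq_of_lt hK]

theorem masked (n x r : ℕ) (hx : x < 2 ^ (32 * n)) (hn : n ≤ 2 ^ 21) :
    Nat.land (Nat.shiftRight x r) (mult (32 * n) 21 32 1) ≡
      ∑ a ∈ Finset.range n, (x.testBit (32 * a + r)).toNat [MOD 2 ^ 32 - 1] := by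
  set y := Nat.land (Nat.shiftRight x r) (mult (32 * n) 21 32 1) with hy
  have hyb : ∀ i, i < 32 * n → y.testBit i = (x.testBit (i + r) && decide (32 ∣ i)) := by
    intro i hi
    rw [hy, tb_land, tb_shr, add_comm r i]
    congr 1
    rw [Bool.eq_iff_iff, decide_eq_true_iff]
    exact mult_one (32 * n) 32 21 (by norm_num) (by omega) i hi
  have hy2 : y < 2 ^ (32 * n) := by
    apply Nat.lt_pow_two_of_testBit
    intro i hi
    rw [hy, tb_land, tb_shr, Nat.testBit_lt_two_pow, Bool.false_and]
    exact lt_of_lt_of_le hx (Nat.pow_le_pow_right (by norm_num) (by omega))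
  have hsum : ∀ m : ℕ, m ≤ n → ∑ i ∈ Finset.range (32 * m), (y.testBit i).toNat * 2 ^ i ≡
      ∑ a ∈ Finset.range m, (x.testBit (32 * a + r)).toNat [MOD 2 ^ 32 - 1] := by
    intro m
    induction m with
    | zero => intro _; simp [Nat.ModEq]
    | succ m ih =>
      intro hm
      rw [Finset.sum_range_succ, Nat.mul_succ, Finset.sum_range_add]
      apply Nat.ModEq.add (ih (by omega))
      rw [Finset.sum_range_succ', Finset.sum_eq_zero, Nat.zero_add, Nat.add_zero,
        hyb _ (by omega)]
      · have h1 : decide (32 ∣ 32 * m) = true := by simp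
        rw [h1, Bool.and_true]
        have h2 : 2 ^ (32 * m) ≡ 1 [MOD 2 ^ 32 - 1] := by
          rw [pow_mul]
          have h3 : 2 ^ 32 ≡ 1 [MOD 2 ^ 32 - 1] := by decide
          simpa using h3.pow m
        simpa using h2.mul_left _
      · intro k hk
        rw [Finset.mem_range] at hk
        rw [hyb _ (by omega)]
        have h1 : decide (32 ∣ 32 * m + (k + 1)) = false := by
          rw [decide_eq_false_iff_not]; omega
        rw [h1]; simp
  rw [sum_bits y _ hy2]
  exact hsum n le_rfl

theorem pcs_spec (n x : ℕ) (hx : x < 2 ^ (32 * n)) (hn : n ≤ 2 ^ 21) (R : ℕ) :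
    pcs (mult (32 * n) 21 32 1) x R ≡
      ∑ r ∈ Finset.range R, ∑ a ∈ Finset.range n, (x.testBit (32 * a + r)).toNat
        [MOD 2 ^ 32 - 1] := by
  induction R with
  | zero => simp [pcs, Nat.ModEq]
  | succ R ih =>
    rw [pcs, Finset.sum_range_succ]
    exact ih.add (masked n x R hx hn)

theorem double_sum (w x m : ℕ) :
    ∑ a ∈ Finset.range m, ∑ r ∈ Finset.range w, (x.testBit (w * a + r)).toNat =
      ((Finset.range (w * m)).filter (fun i => x.testBit i = true)).card := by
  rw [Finset.card_filter]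
  induction m with
  | zero => simp
  | succ m ih =>
    rw [Finset.sum_range_succ, Nat.mul_succ, Finset.sum_range_add, ih]
    congr 1
    apply Finset.sum_congr rfl
    intro r _
    cases x.testBit (w * m + r) <;> simp

theorem pc_spec (n x : ℕ) (hx : x < 2 ^ (32 * n)) (hn : n ≤ 2 ^ 21) :
    pc n x = ((Finset.range (32 * n)).filter (fun i => x.testBit i = true)).card := by
  have h1 := pcs_spec n x hx hn 32
  rw [Finset.sum_comm, double_sum] at h1
  have hB : 32 * n < 2 ^ 32 - 1 := by
    have : (2 : ℕ) ^ 32 = 32 * 2 ^ 21 * 64 := by norm_num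
    have : (2 : ℕ) ^ 21 = 2097152 := by norm_num
    omega
  have h3 := lt_of_le_of_lt (((Finset.card_filter_le (Finset.range (32 * n))
    (fun i => x.testBit i = true))).trans_eq (Finset.card_range _)) hB
  generalize ((Finset.range (32 * n)).filter (fun i => x.testBit i = true)).card = C at *
  unfold pc
  unfold Nat.ModEq at h1
  generalize (2 : ℕ) ^ 32 - 1 = B at *
  rw [h1, Nat.mod_eq_of_lt h3]


/-! ## The computation -/

def SS : ℕ := sieve 1833291 956

def A00 (S : ℕ) : ℕ := andn (andn S 2) (2 ^ 1833290)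

def check (S : ℕ) : Bool :=
  Nat.beq (pc 57291 S) 261150 && (Nat.beq (AA S (A00 S) 80) 0 &&
    (Nat.beq (pc 57291 (UU S (A00 S) 80)) 126043 && Nat.beq (pc 57291 (DD S (A00 S) 80)) 126043))

set_option maxRecDepth 100000 in
theorem chk : check (sieve 1833291 956) = true := by decide +kernel

theorem facts : pc 57291 SS = 261150 ∧ AA SS (A00 SS) 80 = 0 ∧
    pc 57291 (UU SS (A00 SS) 80) = 126043 ∧ pc 57291 (DD SS (A00 SS) 80) = 126043 := by
  have h : check SS = true := chk
  unfold check at h
  rw [Bool.and_eq_true, Bool.and_eq_true, Bool.and_eq_true, Nat.beq_eq, Nat.beq_eq, Nat.beq_eq,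
    Nat.beq_eq] at h
  exact h

theorem SS_spec (i : ℕ) : SS.testBit i = true ↔ i < 1833291 ∧ (2 * i + 1).Prime :=
  sieve_spec 1833291 956 (by norm_num) (by norm_num) i

theorem A00_spec (i : ℕ) : (A00 SS).testBit i = true ↔ i < 1833290 ∧ i ≠ 1 ∧ (2 * i + 1).Prime := by
  unfold A00
  rw [testBit_andn, testBit_andn, Bool.and_eq_true, Bool.and_eq_true, SS_spec,
    Nat.testBit_two_pow, show (2 : ℕ) = 2 ^ 1 from rfl, Nat.testBit_two_pow]
  simp only [Bool.not_eq_true', decide_eq_false_iff_not, show (2 : ℕ) ^ 1 = 2 from rfl]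
  constructor
  · rintro ⟨⟨⟨h1, h2⟩, h3⟩, h4⟩
    exact ⟨by omega, by omega, h2⟩
  · rintro ⟨h1, h2, h3⟩
    exact ⟨⟨⟨by omega, h3⟩, by omega⟩, by omega⟩

/-! ## Primes -/

theorem p_prime (k : ℕ) : (p k).Prime := Nat.prime_nth_prime k

theorem p_strictMono : StrictMono p := Nat.nth_strictMono Nat.infinite_setOfPred_prime

theorem p_count {q : ℕ} (hq : q.Prime) : p (Nat.count Nat.Prime q) = q := Nat.nth_count hq

theorem p_zero : p 0 = 2 := Nat.nth_prime_zero_eq_two

theorem p_one : p 1 = 3 := Nat.nth_prime_one_eq_three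

theorem p_two : p 2 = 5 := by
  have h : Nat.count Nat.Prime 5 = 2 := by decide
  rw [← h]; exact p_count (by norm_num)

theorem between {k r : ℕ} (hr : r.Prime) (h : p k < r) : p (k + 1) ≤ r := by
  rw [← p_count hr] at h ⊢
  exact p_strictMono.monotone (p_strictMono.lt_iff_lt.1 h)

theorem odd_p {k : ℕ} (hk : 1 ≤ k) : p k % 2 = 1 := by
  rcases (p_prime k).eq_two_or_odd with h | h
  · exfalso
    have := p_strictMono (show 0 < k by omega)
    rw [p_zero] at this
    omega
  · exact h

theorem count_two_mul (m : ℕ) (hm : 2 ≤ m) : Nat.count Nat.Prime (2 * m) =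
    1 + ((Finset.range m).filter (fun i => (2 * i + 1).Prime)).card := by
  induction m, hm using Nat.le_induction with
  | base => decide
  | succ m hm ih =>
    rw [show 2 * (m + 1) = 2 * m + 1 + 1 by ring, Nat.count_succ, Nat.count_succ, ih,
      Finset.range_add_one, Finset.filter_insert]
    have h1 : ¬ (2 * m).Prime := Nat.not_prime_mul (by norm_num) (by omega)
    rw [if_neg h1]
    by_cases h2 : (2 * m + 1).Prime
    · rw [if_pos h2, if_pos h2, Finset.card_insert_of_notMem (by simp)]
      ring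
    · rw [if_neg h2, if_neg h2]; ring

theorem SS_lt : SS < 2 ^ (32 * 57291) := by
  apply Nat.lt_pow_two_of_testBit
  intro i hi
  rw [← Bool.not_eq_true, SS_spec]
  omega

theorem prime_N : (3666581 : ℕ).Prime := by norm_num

theorem count_N : Nat.count Nat.Prime 3666581 = 261150 := by
  have h1 := count_two_mul 1833291 (by norm_num)
  have h2 : ((Finset.range 1833291).filter (fun i => (2 * i + 1).Prime)) =
      ((Finset.range (32 * 57291)).filter (fun i => SS.testBit i = true)) := by
    ext i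
    rw [Finset.mem_filter, Finset.mem_filter, SS_spec, Finset.mem_range, Finset.mem_range]
    constructor
    · rintro ⟨h1, h2⟩; exact ⟨by omega, h1, h2⟩
    · rintro ⟨_, h1, h2⟩; exact ⟨h1, h2⟩
  rw [h2, ← pc_spec 57291 SS SS_lt (by norm_num), facts.1,
    show 2 * 1833291 = 3666581 + 1 by norm_num, Nat.count_succ, if_pos prime_N] at h1
  omega

theorem p_n : p 261150 = 3666581 := by rw [← count_N]; exact p_count prime_N

/-- the sign of the difference of two neighbouring gaps, read off the masks -/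
theorem local_sign (k : ℕ) (hk : 3 ≤ k) (hkn : k ≤ 261150) :
    Int.sign (g k - g (k - 1)) =
      (((UU SS (A00 SS) 80).testBit ((p (k - 1) - 1) / 2)).toNat : ℤ) -
        (((DD SS (A00 SS) 80).testBit ((p (k - 1) - 1) / 2)).toNat : ℤ) := by
  obtain ⟨j, rfl⟩ : ∃ j, k = j + 3 := ⟨k - 3, by omega⟩
  have e1 : j + 3 - 1 = j + 2 := by omega
  have e2 : j + 2 - 1 = j + 1 := by omega
  have hlt1 : p (j + 1) < p (j + 2) := p_strictMono (by omega)
  have hlt2 : p (j + 2) < p (j + 3) := p_strictMono (by omega)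
  have hle : p (j + 3) ≤ 3666581 := by rw [← p_n]; exact p_strictMono.monotone hkn
  have ho1 := odd_p (k := j + 1) (by omega)
  have ho2 := odd_p (k := j + 2) (by omega)
  have ho3 := odd_p (k := j + 3) (by omega)
  have h5 : 5 ≤ p (j + 2) := by rw [← p_two]; exact p_strictMono.monotone (by omega)
  have h3 : 3 ≤ p (j + 1) := by rw [← p_one]; exact p_strictMono.monotone (by omega)
  rw [e1]
  unfold g
  rw [e1, e2]
  set s := (p (j + 2) - 1) / 2 with hs
  set u := (p (j + 2) - p (j + 1)) / 2 with hu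
  set v := (p (j + 3) - p (j + 2)) / 2 with hv
  have hs2 : p (j + 2) = 2 * s + 1 := by omega
  have hu2 : p (j + 1) = 2 * (s - u) + 1 := by omega
  have hv2 : p (j + 3) = 2 * (s + v) + 1 := by omega
  have hu1 : 1 ≤ u := by omega
  have hv1 : 1 ≤ v := by omega
  have hus : u ≤ s := by omega
  have key := in_spec SS (A00 SS) s u v
    (by rw [A00_spec, ← hs2]; exact ⟨by omega, by omega, p_prime _⟩) hu1 hus
    (by rw [SS_spec, ← hu2]; exact ⟨by omega, p_prime _⟩)
    (by
      intro i hi1 hi2
      rw [← Bool.not_eq_true, SS_spec]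
      rintro ⟨_, hp⟩
      have := between (k := j + 1) hp (by omega)
      rw [show j + 1 + 1 = j + 2 by ring] at this
      omega) hv1
    (by rw [SS_spec, ← hv2]; exact ⟨by omega, p_prime _⟩)
    (by
      intro i hi1 hi2
      rw [← Bool.not_eq_true, SS_spec]
      rintro ⟨_, hp⟩
      have := between (k := j + 2) hp (by omega)
      rw [show j + 2 + 1 = j + 3 by ring] at this
      omega) 80
  obtain ⟨k1, k2, k3⟩ := key
  rw [facts.2.1, Nat.zero_testBit] at k1
  have k4 := of_decide_eq_false k1.symm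
  rw [k2, k3]
  rcases lt_trichotomy u v with h | h | h
  · have d1 : decide (u < v ∧ u ≤ 80) = true := by rw [decide_eq_true_iff]; omega
    have d2 : decide (v < u ∧ v ≤ 80) = false := by rw [decide_eq_false_iff_not]; omega
    rw [d1, d2, Int.sign_eq_one_of_pos (by omega)]; simp
  · have d1 : decide (u < v ∧ u ≤ 80) = false := by rw [decide_eq_false_iff_not]; omega
    have d2 : decide (v < u ∧ v ≤ 80) = false := by rw [decide_eq_false_iff_not]; omega
    have : (p (j + 3) : ℤ) - (p (j + 2) : ℤ) - ((p (j + 2) : ℤ) - (p (j + 1) : ℤ)) = 0 := by omega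
    rw [d1, d2, this]; simp
  · have d1 : decide (u < v ∧ u ≤ 80) = false := by rw [decide_eq_false_iff_not]; omega
    have d2 : decide (v < u ∧ v ≤ 80) = true := by rw [decide_eq_true_iff]; omega
    rw [d1, d2, Int.sign_eq_neg_one_of_neg (by omega)]; simp

theorem count_mask (W : ℕ) (hW : ∀ i, W.testBit i = true → (A00 SS).testBit i = true) :
    ∑ k ∈ Finset.Icc 3 261150, ((W.testBit ((p (k - 1) - 1) / 2)).toNat : ℤ) = pc 57291 W := by
  have hlt : W < 2 ^ (32 * 57291) := by
    apply Nat.lt_pow_two_of_testBit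
    intro i hi
    rw [← Bool.not_eq_true]
    intro h
    have := (A00_spec i).1 (hW i h)
    omega
  rw [pc_spec 57291 W hlt (by norm_num)]
  have h1 : ∑ k ∈ Finset.Icc 3 261150, ((W.testBit ((p (k - 1) - 1) / 2)).toNat : ℤ) =
      (((Finset.Icc 3 261150).filter (fun k => W.testBit ((p (k - 1) - 1) / 2) = true)).card : ℤ) := by
    rw [Finset.card_filter, Nat.cast_sum]
    apply Finset.sum_congr rfl
    intro k _
    cases W.testBit ((p (k - 1) - 1) / 2) <;> simp
  rw [h1]
  refine congrArg (fun t : ℕ => (t : ℤ)) ?_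
  apply Finset.card_bij (fun k _ => (p (k - 1) - 1) / 2)
  · intro k hk
    rw [Finset.mem_filter, Finset.mem_Icc] at hk
    rw [Finset.mem_filter, Finset.mem_range]
    refine ⟨?_, hk.2⟩
    have := (A00_spec _).1 (hW _ hk.2)
    omega
  · intro k hk l hl hkl
    rw [Finset.mem_filter, Finset.mem_Icc] at hk hl
    have ok := odd_p (k := k - 1) (by omega)
    have ol := odd_p (k := l - 1) (by omega)
    have : p (k - 1) = p (l - 1) := by omega
    have := p_strictMono.injective this
    omega
  · intro i hi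
    rw [Finset.mem_filter, Finset.mem_range] at hi
    have hA := (A00_spec i).1 (hW i hi.2)
    obtain ⟨hA1, hA2, hA3⟩ := hA
    have hi0 : i ≠ 0 := by
      rintro rfl
      exact Nat.not_prime_one hA3
    have hpc := p_count hA3
    have hc1 : 1 < Nat.count Nat.Prime (2 * i + 1) := by
      rw [← p_strictMono.lt_iff_lt, hpc, p_one]; omega
    have hc2 : Nat.count Nat.Prime (2 * i + 1) < 261150 := by
      rw [← p_strictMono.lt_iff_lt, hpc, p_n]; omega
    have hs : (p (Nat.count Nat.Prime (2 * i + 1) + 1 - 1) - 1) / 2 = i := by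
      rw [Nat.add_sub_cancel, hpc]; omega
    refine ⟨Nat.count Nat.Prime (2 * i + 1) + 1, ?_, hs⟩
    rw [Finset.mem_filter, Finset.mem_Icc]
    refine ⟨⟨by omega, by omega⟩, ?_⟩
    rw [hs]; exact hi.2

/-- the exact value of the score at `n = 261150`, where `p n = 3666581` -/
theorem a_value : a 261150 = 1 := by
  unfold a
  have h0 : Finset.Icc 2 261150 = insert 2 (Finset.Icc 3 261150) := by
    ext k
    rw [Finset.mem_insert, Finset.mem_Icc, Finset.mem_Icc]
    omega
  rw [h0, Finset.sum_insert (by rw [Finset.mem_Icc]; omega)]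
  have h1 : Int.sign (g 2 - g (2 - 1)) = 1 := by
    unfold g
    rw [show 2 - 1 = 1 from rfl, show 1 - 1 = 0 from rfl, p_two, p_one, p_zero]
    rfl
  rw [h1, Finset.sum_congr rfl (fun k hk => local_sign k (Finset.mem_Icc.1 hk).1
    (Finset.mem_Icc.1 hk).2), Finset.sum_sub_distrib]
  have hU : ∀ i, (UU SS (A00 SS) 80).testBit i = true → (A00 SS).testBit i = true := by
    intro i hi
    by_contra h
    rw [(out_spec SS (A00 SS) i (by simpa using h) 80).2.1] at hi
    exact Bool.false_ne_true hi
  have hD : ∀ i, (DD SS (A00 SS) 80).testBit i = true → (A00 SS).testBit i = true := by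
    intro i hi
    by_contra h
    rw [(out_spec SS (A00 SS) i (by simpa using h) 80).2.2] at hi
    exact Bool.false_ne_true hi
  rw [count_mask _ hU, count_mask _ hD, facts.2.2.1, facts.2.2.2]
  norm_num

/-- There is an integer `n > 250000` with `a n > 0`. -/
theorem result : ∃ n : ℕ, 250000 < n ∧ 0 < a n :=
  ⟨261150, by norm_num, by rw [a_value]; norm_num⟩

end Pool.Agent.Results.MP_69d63a_nt.PositiveScore
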